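import Pool.Agent.Y614.ZD.Badd

/-!
# Endomorphisms with separable characteristic polynomial (project Y142-SI, task ENDE)
-/

set_option autoImplicit false

open Matrix Polynomial
open Module (finrank)

namespace Pool.Agent.Y949.SI

section root
variable {F K : Type} [Field F] [Field K] [Algebra F K] {Z : Type} [AddCommGroup Z] [Module F Z]
  [FiniteDimensional F Z]

/-- a root of the characteristic polynomial is a root of each polynomial which kills `h` -/
theorem root_of_kill (h : Module.End F Z) (p : F[X]) (hp : aeval h p = 0) (α : K)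
    (hα : aeval α h.charpoly = 0) : aeval α p = 0 := by
  classical
  let b := Module.finBasis F Z
  obtain ⟨A, hA⟩ : ∃ A, A = LinearMap.toMatrixAlgEquiv b h := ⟨_, rfl⟩
  have h1 : A.charpoly = h.charpoly := by rw [hA]; exact LinearMap.charpoly_toMatrix h b
  have h2 : aeval A p = 0 := by
    rw [hA, Polynomial.aeval_algHom_apply, hp, map_zero]
  let ψ : Matrix (Fin (finrank F Z)) (Fin (finrank F Z)) F →+*
    Matrix (Fin (finrank F Z)) (Fin (finrank F Z)) K := (algebraMap F K).mapMatrix
  have h3 : aeval (ψ A) (p.map (algebraMap F K)) = 0 := by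
    rw [← Polynomial.map_aeval_eq_aeval_map (φ := algebraMap F K) (ψ := ψ) _ p A, h2, map_zero]
    ext c i j
    simp only [ψ, RingHom.comp_apply, RingHom.mapMatrix_apply, Matrix.algebraMap_matrix_apply,
      Matrix.map_apply]
    split_ifs <;> simp
  have h4 : (toLin' (ψ A)).charpoly = h.charpoly.map (algebraMap F K) := by
    rw [Matrix.charpoly_toLin', ← h1, ← Matrix.charpoly_map]
    rfl
  have h5 : Module.End.HasEigenvalue (toLin' (ψ A)) α := by
    rw [Module.End.hasEigenvalue_iff_isRoot_charpoly, h4, IsRoot.def, eval_map_algebraMap]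
    exact hα
  obtain ⟨v, hv⟩ := h5.exists_hasEigenvector
  have h6 := Module.End.aeval_apply_of_hasEigenvector (p := p.map (algebraMap F K)) hv
  have h7 : aeval (toLin' (ψ A)) (p.map (algebraMap F K)) = 0 := by
    have h8 := Polynomial.aeval_algHom_apply (toLinAlgEquiv' : Matrix (Fin (finrank F Z))
      (Fin (finrank F Z)) K ≃ₐ[K] _) (ψ A) (p.map (algebraMap F K))
    rw [h3, map_zero] at h8
    exact h8
  rw [h7, LinearMap.zero_apply, eval_map_algebraMap] at h6
  exact (smul_eq_zero.1 h6.symm).resolve_right hv.2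

end root

section field
variable {F : Type} [Field F] {V : Type} [AddCommGroup V] [Module F V] [FiniteDimensional F V]

omit [FiniteDimensional F V] in
theorem coe_aeval_restrict (f : Module.End F V) (S : Submodule F V) (hS : S ≤ S.comap f)
    (P : F[X]) (x : S) : ((aeval (f.restrict hS) P x : S) : V) = aeval f P (x : V) := by
  induction P using Polynomial.induction_on' generalizing x with
  | add p q hp hq =>
    rw [map_add, map_add, LinearMap.add_apply, LinearMap.add_apply, Submodule.coe_add, hp, hq]
  | monomial n a =>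
    rw [aeval_monomial, aeval_monomial, Module.End.mul_apply, Module.End.mul_apply,
      Module.algebraMap_end_apply, Module.algebraMap_end_apply, Submodule.coe_smul]
    congr 1
    induction n with
    | zero => rfl
    | succ n ih =>
      rw [pow_succ', pow_succ', Module.End.mul_apply, Module.End.mul_apply, ← ih]
      rfl

/-- a irreducible factor of the characteristic polynomial has a kernel -/
theorem exists_ker (h : Module.End F V) (R : F[X]) (hR : Irreducible R) (hd : R ∣ h.charpoly) :
    ∃ w : V, w ≠ 0 ∧ aeval h R w = 0 := by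
  by_contra hcon
  push Not at hcon
  have hinj : ∀ w, aeval h R w = 0 → w = 0 := by
    intro w hw
    by_contra h0
    exact hcon w h0 hw
  obtain ⟨α, hα⟩ := IsAlgClosed.exists_aeval_eq_zero (AlgebraicClosure F) R
    (degree_pos_of_irreducible hR).ne'
  have hαc : aeval α h.charpoly = 0 := by
    obtain ⟨s, hs⟩ := hd
    rw [hs, map_mul, hα, zero_mul]
  have hαm : aeval α (minpoly F h) = 0 := root_of_kill h _ (minpoly.aeval F h) α hαc
  have hdm : R ∣ minpoly F h := by
    by_contra hnd
    obtain ⟨a, b, hab⟩ := hR.coprime_iff_not_dvd.2 hnd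
    have h1 := congrArg (aeval α) hab
    rw [map_add, map_mul, map_mul, hα, hαm, mul_zero, mul_zero, add_zero, map_one] at h1
    exact zero_ne_one h1
  obtain ⟨s, hs⟩ := hdm
  have hm0 : minpoly F h ≠ 0 := minpoly.ne_zero (Algebra.IsIntegral.isIntegral h)
  have hs0 : s ≠ 0 := by
    intro h0
    rw [h0, mul_zero] at hs
    exact hm0 hs
  have h2 : aeval h s = 0 := by
    apply LinearMap.ext
    intro x
    apply hinj
    rw [← Module.End.mul_apply, ← map_mul, ← hs, minpoly.aeval, LinearMap.zero_apply]
  have h3 := Polynomial.natDegree_le_of_dvd (minpoly.dvd F h h2) hs0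
  rw [hs, natDegree_mul hR.ne_zero hs0] at h3
  have h4 := hR.natDegree_pos
  omega

/-- kernels of polynomials -/
theorem ker_le [Infinite F] (g : Module.End F V) (hsep : g.charpoly.Separable) (p : F[X])
    (hp : p ≠ 0) : finrank F (LinearMap.ker (aeval g p)) ≤ p.natDegree := by
  obtain ⟨W, hW⟩ : ∃ W, W = LinearMap.ker (aeval g p) := ⟨_, rfl⟩
  rw [← hW]
  have hst : W ≤ W.comap g := by
    intro x hx
    rw [hW, LinearMap.mem_ker] at hx
    rw [Submodule.mem_comap, hW, LinearMap.mem_ker]
    have h1 : aeval g p (g x) = (aeval g (p * X)) x := by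
      rw [map_mul, aeval_X]; rfl
    rw [h1, mul_comm, map_mul, aeval_X, Module.End.mul_apply, hx, map_zero]
  have hdvd : (g.restrict hst).charpoly ∣ g.charpoly := by
    rw [Pool.Agent.W522.C.charpoly_eq_mul g W hst]
    exact dvd_mul_right _ _
  have hcs : (g.restrict hst).charpoly.Separable := hsep.of_dvd hdvd
  have hkill : aeval (g.restrict hst) p = 0 := by
    apply LinearMap.ext
    intro x
    apply Subtype.ext
    rw [coe_aeval_restrict]
    have hx : ∀ y ∈ W, aeval g p y = 0 := by
      intro y hy
      rw [hW] at hy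
      exact hy
    exact hx x.1 x.2
  have h1 : Fintype.card ((g.restrict hst).charpoly.rootSet (AlgebraicClosure F)) =
      (g.restrict hst).charpoly.natDegree :=
    card_rootSet_eq_natDegree hcs (IsAlgClosed.splits _)
  rw [LinearMap.charpoly_natDegree] at h1
  rw [← h1, ← Nat.card_eq_fintype_card, Nat.card_coe_set_eq]
  refine (Set.ncard_le_ncard ?_ (rootSet_finite p (AlgebraicClosure F))).trans
    (ncard_rootSet_le p (AlgebraicClosure F))
  intro x hx
  rw [mem_rootSet]
  exact ⟨hp, root_of_kill _ p hkill x (aeval_eq_zero_of_mem_rootSet hx)⟩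

/-- the endomorphisms which commute with `g` act on the eigenspaces by scalars -/
theorem eig_line [Infinite F] (g : Module.End F V) (hsep : g.charpoly.Separable)
    (Y : Module.End F V) (hY : Y * g = g * Y) (μ : F) (w : V) (hw : g w = μ • w) :
    ∃ c : F, Y w = c • w := by
  by_cases hw0 : w = 0
  · exact ⟨0, by rw [hw0, map_zero, smul_zero]⟩
  have h1 := ker_le g hsep (X - C μ) (X_sub_C_ne_zero μ)
  rw [natDegree_X_sub_C, finrank_le_one_iff] at h1
  have hk : ∀ v, g v = μ • v → v ∈ LinearMap.ker (aeval g (X - C μ)) := by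
    intro v hv
    rw [LinearMap.mem_ker, map_sub, aeval_X, aeval_C, LinearMap.sub_apply, hv,
      Module.algebraMap_end_apply, sub_self]
  obtain ⟨v0, hv0⟩ := h1
  obtain ⟨a, ha⟩ := hv0 ⟨w, hk w hw⟩
  have hYw : g (Y w) = μ • Y w := by
    rw [← Module.End.mul_apply, ← hY, Module.End.mul_apply, hw, map_smul]
  obtain ⟨b, hb⟩ := hv0 ⟨Y w, hk _ hYw⟩
  have ha' : a • (v0 : V) = w := congrArg Subtype.val ha
  have hb' : b • (v0 : V) = Y w := congrArg Subtype.val hb
  have ha0 : a ≠ 0 := by
    intro h0
    rw [h0, zero_smul] at ha'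
    exact hw0 ha'.symm
  refine ⟨b / a, ?_⟩
  rw [← hb', ← ha', smul_smul, div_mul_cancel₀ _ ha0]

theorem eq_zero_of_eig [IsAlgClosed F] (g : Module.End F V) (hsep : g.charpoly.Separable)
    (Y : Module.End F V) (hY : ∀ (μ : F) (w : V), g w = μ • w → Y w = 0) : Y = 0 := by
  have h1 : g.IsSemisimple :=
    Module.End.isSemisimple_of_squarefree_aeval_eq_zero hsep.squarefree
      (LinearMap.aeval_self_charpoly g)
  have h2 : (⊤ : Submodule F V) ≤ LinearMap.ker Y := by
    rw [← h1.iSup_eigenspace_eq_top]
    refine iSup_le fun μ w hw => ?_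
    exact hY μ w (Module.End.mem_eigenspace_iff.1 hw)
  apply LinearMap.ext
  intro x
  exact h2 (Submodule.mem_top)

theorem comm_closed [IsAlgClosed F] (g : Module.End F V) (hsep : g.charpoly.Separable)
    (Y Z : Module.End F V) (hY : Y * g = g * Y) (hZ : Z * g = g * Z) : Y * Z = Z * Y := by
  rw [← sub_eq_zero]
  apply eq_zero_of_eig g hsep
  intro μ w hw
  obtain ⟨c, hc⟩ := eig_line g hsep Y hY μ w hw
  obtain ⟨d, hd⟩ := eig_line g hsep Z hZ μ w hw
  rw [LinearMap.sub_apply, Module.End.mul_apply, Module.End.mul_apply, hc, hd, map_smul, map_smul,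
    hc, hd, smul_comm, sub_self]

theorem red_closed [IsAlgClosed F] (g : Module.End F V) (hsep : g.charpoly.Separable)
    (Y : Module.End F V) (hY : Y * g = g * Y) (hYY : Y * Y = 0) : Y = 0 := by
  apply eq_zero_of_eig g hsep
  intro μ w hw
  obtain ⟨c, hc⟩ := eig_line g hsep Y hY μ w hw
  have h1 : Y (Y w) = 0 := by
    rw [← Module.End.mul_apply, hYY, LinearMap.zero_apply]
  rw [hc, map_smul, hc, smul_smul, smul_eq_zero, mul_self_eq_zero] at h1
  rcases h1 with h | h
  · rw [hc, h, zero_smul]
  · rw [h, map_zero]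

end field

section mat
variable {F : Type} [Field F] {N : ℕ}

/-- the matrices which commute with a matrix with separable characteristic polynomial commute -/
theorem mat_comm (g : Matrix (Fin N) (Fin N) F) (hsep : g.charpoly.Separable)
    (Y Z : Matrix (Fin N) (Fin N) F) (hY : Y * g = g * Y) (hZ : Z * g = g * Z) :
    Y * Z = Z * Y := by
  let ψ : Matrix (Fin N) (Fin N) F →+* Matrix (Fin N) (Fin N) (AlgebraicClosure F) :=
    (algebraMap F (AlgebraicClosure F)).mapMatrix
  have hinj : Function.Injective ψ := by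
    intro A B h
    ext i j
    exact (algebraMap F (AlgebraicClosure F)).injective (congrFun (congrFun h i) j)
  have hs' : (toLin' (ψ g)).charpoly.Separable := by
    rw [Matrix.charpoly_toLin']
    change (g.map _).charpoly.Separable
    rw [Matrix.charpoly_map]
    exact hsep.map
  have hc : ∀ A : Matrix (Fin N) (Fin N) F, A * g = g * A →
      toLin' (ψ A) * toLin' (ψ g) = toLin' (ψ g) * toLin' (ψ A) := by
    intro A hA
    have h1 := congrArg (fun B => toLin' (ψ B)) hA
    simp only [map_mul] at h1
    rw [Matrix.toLin'_mul, Matrix.toLin'_mul] at h1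
    exact h1
  have h2 := comm_closed (toLin' (ψ g)) hs' (toLin' (ψ Y)) (toLin' (ψ Z)) (hc Y hY) (hc Z hZ)
  apply hinj
  apply (toLin' (R := AlgebraicClosure F) (m := Fin N) (n := Fin N)).injective
  rw [map_mul ψ, map_mul ψ, Matrix.toLin'_mul, Matrix.toLin'_mul]
  exact h2

/-- the commutant is reduced -/
theorem mat_red (g : Matrix (Fin N) (Fin N) F) (hsep : g.charpoly.Separable)
    (Y : Matrix (Fin N) (Fin N) F) (hY : Y * g = g * Y) (hYY : Y * Y = 0) : Y = 0 := by
  let ψ : Matrix (Fin N) (Fin N) F →+* Matrix (Fin N) (Fin N) (AlgebraicClosure F) :=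
    (algebraMap F (AlgebraicClosure F)).mapMatrix
  have hinj : Function.Injective ψ := by
    intro A B h
    ext i j
    exact (algebraMap F (AlgebraicClosure F)).injective (congrFun (congrFun h i) j)
  have hs' : (toLin' (ψ g)).charpoly.Separable := by
    rw [Matrix.charpoly_toLin']
    change (g.map _).charpoly.Separable
    rw [Matrix.charpoly_map]
    exact hsep.map
  have h1 : toLin' (ψ Y) * toLin' (ψ g) = toLin' (ψ g) * toLin' (ψ Y) := by
    have h1 := congrArg (fun B => toLin' (ψ B)) hY
    simp only [map_mul] at h1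
    rw [Matrix.toLin'_mul, Matrix.toLin'_mul] at h1
    exact h1
  have h2 : toLin' (ψ Y) * toLin' (ψ Y) = 0 := by
    have h2 := congrArg (fun B => toLin' (ψ B)) hYY
    simp only [map_mul, map_zero] at h2
    rw [Matrix.toLin'_mul] at h2
    exact h2
  have h3 := red_closed (toLin' (ψ g)) hs' (toLin' (ψ Y)) h1 h2
  apply hinj
  apply (toLin' (R := AlgebraicClosure F) (m := Fin N) (n := Fin N)).injective
  rw [map_zero, map_zero]
  exact h3

end mat

end Pool.Agent.Y949.SI
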