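import Pool.Agent.Y142.SI.Stm
import Pool.Agent.Y949.SI.Lin

/-!
# The commutant of a representation with a regular element (project Y142-SI, task ENDE)
-/

set_option autoImplicit false

open Matrix Polynomial
open Module (finrank)

namespace Pool.Agent.Y949.SI

section main
variable {F : Type} [Field F] {N : ℕ}

/-- the fixed vectors of a matrix -/
def Fx (e : Matrix (Fin N) (Fin N) F) : Submodule F (Fin N → F) where
  carrier := {v | e *ᵥ v = v}
  add_mem' := fun {a b} ha hb => by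
    change e *ᵥ (a + b) = a + b
    rw [Matrix.mulVec_add]
    exact congrArg₂ (· + ·) ha hb
  zero_mem' := Matrix.mulVec_zero e
  smul_mem' := fun c a ha => by
    change e *ᵥ (c • a) = c • a
    rw [Matrix.mulVec_smul]
    exact congrArg (c • ·) ha

theorem mem_Fx {e : Matrix (Fin N) (Fin N) F} {v : Fin N → F} : v ∈ Fx e ↔ e *ᵥ v = v := Iff.rfl

/-- the elements of `C` which are fixed by `e` -/
def Mx (C : Submodule F (Matrix (Fin N) (Fin N) F)) (e : Matrix (Fin N) (Fin N) F) :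
    Submodule F (Matrix (Fin N) (Fin N) F) where
  carrier := {Y | Y ∈ C ∧ e * Y = Y}
  add_mem' := fun {a b} ha hb => ⟨C.add_mem ha.1 hb.1, by rw [mul_add, ha.2, hb.2]⟩
  zero_mem' := ⟨C.zero_mem, mul_zero e⟩
  smul_mem' := fun c a ha => ⟨C.smul_mem c ha.1, by rw [mul_smul_comm, ha.2]⟩

theorem mem_Mx {C : Submodule F (Matrix (Fin N) (Fin N) F)} {e Y : Matrix (Fin N) (Fin N) F} :
    Y ∈ Mx C e ↔ Y ∈ C ∧ e * Y = Y := Iff.rfl

theorem aeval_mem' (C : Submodule F (Matrix (Fin N) (Fin N) F))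
    (hmul : ∀ X ∈ C, ∀ Y ∈ C, X * Y ∈ C) (h1 : (1 : Matrix (Fin N) (Fin N) F) ∈ C)
    {Y : Matrix (Fin N) (Fin N) F} (hY : Y ∈ C) (p : F[X]) : aeval Y p ∈ C := by
  induction p using Polynomial.induction_on' with
  | add p q hp hq => rw [map_add]; exact C.add_mem hp hq
  | monomial n a =>
    rw [aeval_monomial, ← Algebra.smul_def]
    apply C.smul_mem
    induction n with
    | zero => rwa [pow_zero]
    | succ n ih => rw [pow_succ]; exact hmul _ ih _ hY

theorem comm_aeval {Y g : Matrix (Fin N) (Fin N) F} (h : Y * g = g * Y) (p : F[X]) :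
    Y * aeval g p = aeval g p * Y := by
  induction p using Polynomial.induction_on' with
  | add p q hp hq => rw [map_add, mul_add, add_mul, hp, hq]
  | monomial n a =>
    rw [aeval_monomial, ← Algebra.smul_def, mul_smul_comm, smul_mul_assoc]
    congr 1
    induction n with
    | zero => rw [pow_zero, mul_one, one_mul]
    | succ n ih => rw [pow_succ, ← mul_assoc, ih, mul_assoc, h, mul_assoc]

/-- a non-invertible element gives an idempotent -/
theorem split (C : Submodule F (Matrix (Fin N) (Fin N) F))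
    (hmul : ∀ X ∈ C, ∀ Y ∈ C, X * Y ∈ C) (h1 : (1 : Matrix (Fin N) (Fin N) F) ∈ C)
    (g : Matrix (Fin N) (Fin N) F) (hsep : g.charpoly.Separable)
    (hCg : ∀ X ∈ C, X * g = g * X) (e : Matrix (Fin N) (Fin N) F)
    (Y : Matrix (Fin N) (Fin N) F) (hY : Y ∈ C) (heY : e * Y = Y) (hY0 : Y ≠ 0)
    (v : Fin N → F) (hv0 : v ≠ 0) (hYv : Y *ᵥ v = 0) :
    ∃ e' ∈ C, e' * e' = e' ∧ e * e' = e' ∧ e' ≠ 0 ∧ e' *ᵥ v = 0 := by
  obtain ⟨m, hm⟩ : ∃ m, m = minpoly F Y := ⟨_, rfl⟩
  have hmY : aeval Y m = 0 := by rw [hm]; exact minpoly.aeval F Y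
  have hm0 : m ≠ 0 := by
    rw [hm]; exact minpoly.ne_zero (Algebra.IsIntegral.isIntegral Y)
  have hXm : (X : F[X]) ∣ m := by
    by_contra hnd
    obtain ⟨a, b, hab⟩ := (Polynomial.irreducible_X (R := F)).coprime_iff_not_dvd.2 hnd
    apply hv0
    have h2 := congrArg (fun p => aeval Y p *ᵥ v) hab
    simp only [map_add, map_mul, hmY, mul_zero, add_zero, map_one, aeval_X, one_mulVec] at h2
    rw [← h2, ← mulVec_mulVec, hYv, mulVec_zero]
  obtain ⟨q, hq⟩ := hXm
  have hq0 : q ≠ 0 := by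
    intro h0
    rw [h0, mul_zero] at hq
    exact hm0 hq
  have hXq : ¬ (X : F[X]) ∣ q := by
    rintro ⟨s, hs⟩
    have hs0 : s ≠ 0 := by
      intro h0
      rw [h0, mul_zero] at hs
      exact hq0 hs
    have hZ : aeval Y (X * s) * aeval Y (X * s) = 0 := by
      rw [← map_mul]
      have h2 : X * s * (X * s) = m * s := by rw [hq, hs]; ring
      rw [h2, map_mul, hmY, zero_mul]
    have hZ0 := mat_red g hsep _ (hCg _ (aeval_mem' C hmul h1 hY (X * s))) hZ
    have h3 : m ∣ X * s := by rw [hm]; exact minpoly.dvd F Y hZ0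
    have h4 := Polynomial.natDegree_le_of_dvd h3 (mul_ne_zero X_ne_zero hs0)
    rw [hq, hs, natDegree_mul X_ne_zero (mul_ne_zero X_ne_zero hs0),
      natDegree_mul X_ne_zero hs0, natDegree_X] at h4
    omega
  obtain ⟨a, b, hab⟩ := (Polynomial.irreducible_X (R := F)).coprime_iff_not_dvd.2 hXq
  have hmem := aeval_mem' C hmul h1 hY (X * a)
  have hYe : aeval Y (X * a) = Y * aeval Y a := by rw [map_mul, aeval_X]
  refine ⟨aeval Y (X * a), hmem, ?_, ?_, ?_, ?_⟩
  · rw [← sub_eq_zero, ← map_mul, ← map_sub]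
    have h2 : X * a * (X * a) - X * a = - (a * b) * m := by
      rw [hq]
      linear_combination (X * a) * hab
    rw [h2, map_mul, hmY, mul_zero]
  · rw [hYe, ← mul_assoc, heY]
  · intro h0
    apply hY0
    have h2 : Y = aeval Y (X * (a * X + b * q)) := by
      rw [hab, mul_one, aeval_X]
    have h3 : X * (a * X + b * q) = X * (X * a) + b * m := by rw [hq]; ring
    rw [h3, map_add, map_mul, h0, mul_zero, map_mul, hmY, mul_zero, add_zero] at h2
    exact h2
  · have h2 : aeval Y (X * a) = aeval Y a * Y := by rw [mul_comm, map_mul, aeval_X]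
    rw [h2, ← mulVec_mulVec, hYv, mulVec_zero]

theorem main [Infinite F] (C : Submodule F (Matrix (Fin N) (Fin N) F))
    (hmul : ∀ X ∈ C, ∀ Y ∈ C, X * Y ∈ C) (h1 : (1 : Matrix (Fin N) (Fin N) F) ∈ C)
    (g : Matrix (Fin N) (Fin N) F) (hsep : g.charpoly.Separable)
    (hCg : ∀ X ∈ C, X * g = g * X) (St : Submodule F (Fin N → F) → Prop) (hbot : St ⊥)
    (hsup : ∀ A B, St A → St B → St (A ⊔ B)) (hinf : ∀ A B, St A → St B → St (A ⊓ B))
    (hFx : ∀ e ∈ C, St (Fx e)) (hSg : ∀ W, St W → ∀ w ∈ W, g *ᵥ w ∈ W) (D f : ℕ)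
    (hf : 0 < f) (hdv : ∀ W, St W → D ∣ finrank F W)
    (hR : ∀ R : F[X], R.Monic → R ∣ g.charpoly → R ≠ 1 → D ∣ R.natDegree →
      ∃ R₁ : F[X], Irreducible R₁ ∧ R₁ ∣ R ∧ R₁.natDegree ≤ f) :
    ∀ n : ℕ, ∀ e ∈ C, e * e = e → finrank F (Fx e) = n →
      D * finrank F (Mx C e) ≤ f * finrank F (Fx e) ∧
      (D * finrank F (Mx C e) = f * finrank F (Fx e) → ∀ W, St W →
        ∃ W', St W' ∧ W' ≤ Fx e ∧ Disjoint W W' ∧ Fx e ≤ W ⊔ W') := by
  intro n
  induction n using Nat.strong_induction_on with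
  | _ n ih =>
  intro e heC hee hn
  by_cases he0 : e = 0
  · have h2 : Fx e = ⊥ := by
      rw [eq_bot_iff]
      intro x hx
      rw [mem_Fx, he0, zero_mulVec] at hx
      exact hx.symm
    have h3 : Mx C e = ⊥ := by
      rw [eq_bot_iff]
      intro x hx
      rw [mem_Mx, he0, zero_mul] at hx
      exact hx.2.symm
    rw [h2, h3, finrank_bot, finrank_bot, mul_zero, mul_zero]
    exact ⟨le_rfl, fun _ W _ => ⟨⊥, hbot, le_rfl, disjoint_bot_right, bot_le⟩⟩
  have hpos : ∀ e' : Matrix (Fin N) (Fin N) F, e' * e' = e' → e' ≠ 0 → 0 < finrank F (Fx e') := by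
    intro e' h2 h3
    rw [Nat.pos_iff_ne_zero]
    intro h4
    apply h3
    rw [Submodule.finrank_eq_zero] at h4
    apply (toLin' (R := F) (m := Fin N) (n := Fin N)).injective
    rw [map_zero]
    apply LinearMap.ext
    intro x
    rw [toLin'_apply]
    have h5 : e' *ᵥ x ∈ Fx e' := by rw [mem_Fx, mulVec_mulVec, h2]
    rw [h4] at h5
    exact h5
  have hposn := hpos e hee he0
  by_cases hfield : ∀ Y ∈ C, e * Y = Y → ∀ v, e *ᵥ v = v → v ≠ 0 → Y *ᵥ v = 0 → Y = 0
  · have hDle : D ≤ finrank F (Fx e) := Nat.le_of_dvd hposn (hdv _ (hFx e heC))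
    have hst : Fx e ≤ (Fx e).comap (toLin' g) := fun x hx => hSg _ (hFx e heC) x hx
    have hdeg : ((toLin' g).restrict hst).charpoly.natDegree = finrank F (Fx e) :=
      LinearMap.charpoly_natDegree _
    obtain ⟨R₁, hirr, hd, hR₁f⟩ := hR ((toLin' g).restrict hst).charpoly
      (LinearMap.charpoly_monic _) (by
        rw [← Matrix.charpoly_toLin' g, Pool.Agent.W522.C.charpoly_eq_mul (toLin' g) _ hst]
        exact dvd_mul_right _ _) (by
        intro h0
        rw [h0, natDegree_one] at hdeg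
        omega) (by rw [hdeg]; exact hdv _ (hFx e heC))
    obtain ⟨w, hw0, hw⟩ := exists_ker ((toLin' g).restrict hst) R₁ hirr hd
    have hw' : aeval g R₁ *ᵥ (w : Fin N → F) = 0 := by
      have h2 := congrArg Subtype.val hw
      rw [coe_aeval_restrict] at h2
      have h3 := Polynomial.aeval_algHom_apply (toLinAlgEquiv' : Matrix (Fin N) (Fin N) F ≃ₐ[F] _)
        g R₁
      have h4 : aeval (toLin' g) R₁ = toLin' (aeval g R₁) := h3
      rw [h4, toLin'_apply] at h2
      exact h2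
    have hw0' : (w : Fin N → F) ≠ 0 := fun h => hw0 (Subtype.ext h)
    have hker : ∀ Y ∈ Mx C e, Y *ᵥ (w : Fin N → F) ∈ LinearMap.ker (aeval (toLin' g) R₁) := by
      intro Y hY
      have h3 := Polynomial.aeval_algHom_apply (toLinAlgEquiv' : Matrix (Fin N) (Fin N) F ≃ₐ[F] _)
        g R₁
      have h4 : aeval (toLin' g) R₁ = toLin' (aeval g R₁) := h3
      rw [LinearMap.mem_ker, h4, toLin'_apply, mulVec_mulVec, ← comm_aeval (hCg Y hY.1),
        ← mulVec_mulVec, hw', mulVec_zero]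
    let φ : Mx C e →ₗ[F] LinearMap.ker (aeval (toLin' g) R₁) :=
      { toFun := fun Y => ⟨Y.1 *ᵥ (w : Fin N → F), hker Y.1 Y.2⟩
        map_add' := fun Y Z => Subtype.ext (by
          change (Y.1 + Z.1) *ᵥ (w : Fin N → F) = Y.1 *ᵥ (w : Fin N → F) + Z.1 *ᵥ (w : Fin N → F)
          exact Matrix.add_mulVec _ _ _)
        map_smul' := fun c Y => Subtype.ext (by
          change (c • Y.1) *ᵥ (w : Fin N → F) = c • (Y.1 *ᵥ (w : Fin N → F))
          exact Matrix.smul_mulVec _ _ _) }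
    have hφ : Function.Injective φ := by
      rw [injective_iff_map_eq_zero]
      intro Y hY
      apply Subtype.ext
      exact hfield Y.1 Y.2.1 Y.2.2 w w.2 hw0' (congrArg Subtype.val hY)
    have hm1 : finrank F (Mx C e) ≤ R₁.natDegree :=
      (LinearMap.finrank_le_finrank_of_injective hφ).trans
        (ker_le (toLin' g) (by rw [Matrix.charpoly_toLin']; exact hsep) R₁ hirr.ne_zero)
    have hm2 : finrank F (Mx C e) ≤ f := hm1.trans hR₁f
    have hc1 : D * finrank F (Mx C e) ≤ D * f := Nat.mul_le_mul_left D hm2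
    have hc2 : D * f ≤ f * finrank F (Fx e) := by
      rw [mul_comm]; exact Nat.mul_le_mul_left f hDle
    refine ⟨hc1.trans hc2, fun heq W hW => ?_⟩
    have hDf : f * D = f * finrank F (Fx e) := by
      have h2 := mul_comm D f
      omega
    have hDe : D = finrank F (Fx e) := Nat.eq_of_mul_eq_mul_left hf hDf
    have hst2 : St (W ⊓ Fx e) := hinf _ _ hW (hFx e heC)
    rcases Nat.eq_zero_or_pos (finrank F (W ⊓ Fx e : Submodule F (Fin N → F))) with h0 | h0
    · rw [Submodule.finrank_eq_zero] at h0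
      exact ⟨Fx e, hFx e heC, le_rfl, disjoint_iff.2 h0, le_sup_right⟩
    · have h2 := Nat.le_of_dvd h0 (hdv _ hst2)
      rw [hDe] at h2
      have h3 : W ⊓ Fx e = Fx e := Submodule.eq_of_le_of_finrank_le inf_le_right h2
      refine ⟨⊥, hbot, bot_le, disjoint_bot_right, ?_⟩
      rw [sup_bot_eq]
      exact inf_eq_right.1 h3
  · push Not at hfield
    obtain ⟨Y, hYC, heY, v, hev, hv0, hYv, hY0⟩ := hfield
    obtain ⟨e', he'C, he'e', hee', he'0, he'v⟩ := split C hmul h1 g hsep hCg e Y hYC heY hY0 v hv0 hYv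
    have he'e : e' * e = e' := by
      rw [mat_comm g hsep e' e (hCg e' he'C) (hCg e heC), hee']
    obtain ⟨d, hd⟩ : ∃ d, d = e - e' := ⟨_, rfl⟩
    have hdC : d ∈ C := by rw [hd]; exact C.sub_mem heC he'C
    have hdd : d * d = d := by
      rw [hd, mul_sub, sub_mul, sub_mul, hee, he'e, hee', he'e', sub_self, sub_zero]
    have hed : e * d = d := by rw [hd, mul_sub, hee, hee']
    have he'd : e' * d = 0 := by rw [hd, mul_sub, he'e, he'e', sub_self]
    have hsum : e' + d = e := by rw [hd]; abel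
    have hd0 : d ≠ 0 := by
      intro h0
      have h2 : e *ᵥ v = e' *ᵥ v := by rw [← hsum, h0, add_zero]
      rw [hev, he'v] at h2
      exact hv0 h2
    have hle1 : Fx e' ≤ Fx e := by
      intro x hx
      rw [mem_Fx] at hx ⊢
      rw [← hx, mulVec_mulVec, hee']
    have hle2 : Fx d ≤ Fx e := by
      intro x hx
      rw [mem_Fx] at hx ⊢
      rw [← hx, mulVec_mulVec, hed]
    have hinf0 : Fx e' ⊓ Fx d = ⊥ := by
      rw [eq_bot_iff]
      rintro x ⟨hx1, hx2⟩
      have hx1' : e' *ᵥ x = x := hx1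
      have hx2' : d *ᵥ x = x := hx2
      rw [← hx2', mulVec_mulVec, he'd, zero_mulVec] at hx1'
      rw [← hx2', ← hx1']
      exact Submodule.zero_mem _
    have hsupe : Fx e' ⊔ Fx d = Fx e := by
      refine le_antisymm (sup_le hle1 hle2) ?_
      intro x hx
      have hx' : e *ᵥ x = x := hx
      rw [← hx', ← hsum, add_mulVec]
      refine Submodule.add_mem_sup ?_ ?_
      · rw [mem_Fx, mulVec_mulVec, he'e']
      · rw [mem_Fx, mulVec_mulVec, hdd]
    have hrank : finrank F (Fx e') + finrank F (Fx d) = finrank F (Fx e) := by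
      have h2 := Submodule.finrank_sup_add_finrank_inf_eq (Fx e') (Fx d)
      rw [hinf0, hsupe, finrank_bot, add_zero] at h2
      exact h2.symm
    have hMle : Mx C e ≤ Mx C e' ⊔ Mx C d := by
      intro Z hZ
      obtain ⟨hZ1, hZ2⟩ := hZ
      rw [← hZ2, ← hsum, add_mul]
      refine Submodule.add_mem_sup ⟨hmul _ he'C _ hZ1, ?_⟩ ⟨hmul _ hdC _ hZ1, ?_⟩
      · rw [← mul_assoc, he'e']
      · rw [← mul_assoc, hdd]
    have hMrank : finrank F (Mx C e) ≤ finrank F (Mx C e') + finrank F (Mx C d) :=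
      (Submodule.finrank_mono hMle).trans (Submodule.finrank_add_le_finrank_add_finrank _ _)
    have hp1 := hpos e' he'e' he'0
    have hp2 := hpos d hdd hd0
    obtain ⟨i1, i2⟩ := ih (finrank F (Fx e')) (by omega) e' he'C he'e' rfl
    obtain ⟨j1, j2⟩ := ih (finrank F (Fx d)) (by omega) d hdC hdd rfl
    have k1 := Nat.mul_le_mul_left D hMrank
    rw [mul_add] at k1
    have k2 : f * finrank F (Fx e') + f * finrank F (Fx d) = f * finrank F (Fx e) := by
      rw [← mul_add, hrank]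
    refine ⟨by omega, fun heq W hW => ?_⟩
    obtain ⟨W1, a1, a2, a3, a4⟩ := i2 (by omega) W hW
    obtain ⟨W2, b1, b2, b3, b4⟩ := j2 (by omega) (W ⊔ W1) (hsup _ _ hW a1)
    refine ⟨W1 ⊔ W2, hsup _ _ a1 b1, sup_le (a2.trans hle1) (b2.trans hle2),
      a3.disjoint_sup_right_of_disjoint_sup_left b3, ?_⟩
    rw [← hsupe, ← sup_assoc]
    exact sup_le (a4.trans le_sup_left) b4

end main

open Pool.Agent.Y142.ZO Pool.Agent.Y142.ZI Pool.Agent.Y142.ZD Pool.Agent.Y142.SI in
/-- task ENDE -/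
theorem t : S_ENDE := by
  intro ℓ _ N G _ _ _ _ ρ U hU D f hD hf hdv σ hsep hdist hR
  -- a power in `U`
  obtain ⟨k, hk, hkU⟩ : ∃ k : ℕ, 0 < k ∧ σ ^ k ∈ U := by
    have : Finite (G ⧸ U) := U.quotient_finite_of_isOpen hU
    have hidx : U.index ≠ 0 := Subgroup.index_ne_zero_of_finite
    obtain ⟨n, hn, _, hmem⟩ := Subgroup.exists_pow_mem_of_index_ne_zero hidx σ
    exact ⟨n, hn, hmem⟩
  obtain ⟨P, hP⟩ := Pool.Agent.Y614.ZD.exists_poly_sep _ (Matrix.charpoly_monic (ρ σ)) hsep k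
    (fun x y hx hy hxy => hdist k x y hk hx hy hxy)
  have hPg : aeval (ρ (σ ^ k)) P = ρ σ := by
    obtain ⟨S, hS⟩ := hP
    have h2 : aeval (ρ σ) (P.comp (X ^ k) - X) = 0 := by
      rw [hS, map_mul, Matrix.aeval_self_charpoly, zero_mul]
    rw [map_sub, aeval_X, Polynomial.aeval_comp, map_pow, aeval_X, sub_eq_zero] at h2
    rw [map_pow]
    exact h2
  have hCg : ∀ Y ∈ Comm ρ U, Y * ρ σ = ρ σ * Y := by
    intro Y hY
    rw [← hPg]
    exact comm_aeval (hY _ hkU) P
  have hSg : ∀ W : Submodule ℚ_[ℓ] (Fin N → ℚ_[ℓ]), (∀ τ ∈ U, ∀ w ∈ W, ρ τ *ᵥ w ∈ W) →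
      ∀ w ∈ W, ρ σ *ᵥ w ∈ W := by
    intro W hW w hw
    have h2 := Pool.Agent.Y379.ZI.stable_of_pow (toLin' (ρ σ)) W k (by
      intro w hw
      rw [← toLin'_pow, toLin'_apply, ← map_pow]
      exact hW _ hkU w hw) P (by rw [Matrix.charpoly_toLin']; exact hP) w hw
    rwa [toLin'_apply] at h2
  have key := main (Comm ρ U)
    (by
      intro X hX Y hY τ hτ
      rw [mul_assoc, hY τ hτ, ← mul_assoc, hX τ hτ, mul_assoc])
    (by intro τ _; rw [one_mul, mul_one]) (ρ σ) hsep hCg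
    (fun W => ∀ τ ∈ U, ∀ w ∈ W, ρ τ *ᵥ w ∈ W)
    (by
      intro τ _ w hw
      rw [Submodule.mem_bot] at hw
      rw [hw, mulVec_zero]
      exact Submodule.zero_mem _)
    (by
      intro A B hA hB τ hτ w hw
      obtain ⟨a, ha, b, hb, rfl⟩ := Submodule.mem_sup.1 hw
      rw [mulVec_add]
      exact Submodule.add_mem_sup (hA τ hτ a ha) (hB τ hτ b hb))
    (fun A B hA hB τ hτ w hw => ⟨hA τ hτ w hw.1, hB τ hτ w hw.2⟩)
    (by
      intro e he τ hτ w hw
      rw [mem_Fx] at hw ⊢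
      rw [mulVec_mulVec, he τ hτ, ← mulVec_mulVec, hw])
    hSg D f hf hdv hR _ 1 (by intro τ _; rw [one_mul, mul_one]) (one_mul 1) rfl
  have hF : Fx (1 : Matrix (Fin N) (Fin N) ℚ_[ℓ]) = ⊤ := by
    rw [eq_top_iff]
    intro x _
    rw [mem_Fx, one_mulVec]
  have hM : Mx (Comm ρ U) 1 = Comm ρ U := by
    ext Y
    rw [mem_Mx, one_mul]
    exact ⟨fun h => h.1, fun h => ⟨h, rfl⟩⟩
  rw [hF, hM, finrank_top, Module.finrank_fin_fun] at key
  obtain ⟨key1, key2⟩ := key
  refine ⟨by rw [mul_comm N f]; exact key1, fun heq W hW => ?_⟩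
  obtain ⟨W', c1, -, c2, c3⟩ := key2 (by rw [heq, mul_comm]) W hW
  exact ⟨W', c1, c2, codisjoint_iff_le_sup.2 c3⟩

end Pool.Agent.Y949.SI
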